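import Pool.Agent.Helper78.W3.StD

/-!
# Project W3, module Sur: solving the inhomogeneous relation
-/

set_option autoImplicit false

namespace Pool.Agent.Helper86.W3

open Pool.Agent.Helper78.W3 Pool.Agent.Helper14.W3
open Pool.Agent.Helper14.CV (Homog EqC act Tl)

private theorem decomp_Sur (hLow0 : S3Low0) (hBb : S3Bb) (r s : ℕ) (e : ℤ) (E : Fn3 (3 ^ r) (3 ^ s))
    (he : e < 3 ^ r + 3 ^ s - 2) (hE : E ∈ Wd3 e) :
    ∃ U V : Fn3 (3 ^ r) (3 ^ s), U ∈ Wd3 (e + 1) ∧ V ∈ Wd3 (e + 1) ∧ dX U + dY V = E := by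
  obtain ⟨_, _, _, _, hmono, _⟩ := hLow0 r s
  obtain ⟨h1, h2, h3, _, _, h6⟩ := hBb r s
  set c : ℕ → ℕ → ZMod 3 := fun i j =>
    ((dX ^ i * dY ^ j : Module.End (ZMod 3) (Fn3 (3 ^ r) (3 ^ s))) E) 0 0 with hc
  have hc0 : ∀ i j : ℕ, e < (i : ℤ) + j → c i j = 0 := by
    intro i j hij
    have : ((dX ^ i * dY ^ j : Module.End (ZMod 3) (Fn3 (3 ^ r) (3 ^ s))) E) = 0 := hE i j hij
    rw [hc]
    simp only [this]
    rfl
  have hj : ∀ i j : ℕ, i < 3 ^ r → (i : ℤ) + j ≤ e → ¬ (i + 1 < 3 ^ r) → j + 1 < 3 ^ s := by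
    intro i j hi hij hi1
    have h7 : i + 1 = 3 ^ r := by omega
    have h8 : (i : ℤ) + 1 = 3 ^ r := by exact_mod_cast h7
    have h9 : (j : ℤ) + 1 < 3 ^ s := by linarith
    exact_mod_cast h9
  refine ⟨∑ i ∈ Finset.range (3 ^ r), ∑ j ∈ Finset.range (3 ^ s),
      (if i + 1 < 3 ^ r then c i j • bb3 (i + 1) j else 0),
    ∑ i ∈ Finset.range (3 ^ r), ∑ j ∈ Finset.range (3 ^ s),
      (if i + 1 < 3 ^ r then 0 else c i j • bb3 i (j + 1)), ?_, ?_, ?_⟩
  · refine Submodule.sum_mem _ fun i hi => Submodule.sum_mem _ fun j hj => ?_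
    rw [Finset.mem_range] at hi hj
    split_ifs with h
    · by_cases hij : (i : ℤ) + j ≤ e
      · refine Submodule.smul_mem _ _ (hmono _ _ ?_ (h1 (i + 1) j h hj))
        push_cast
        linarith
      · rw [hc0 i j (not_le.1 hij), zero_smul]
        exact Submodule.zero_mem _
    · exact Submodule.zero_mem _
  · refine Submodule.sum_mem _ fun i hi => Submodule.sum_mem _ fun j _ => ?_
    rw [Finset.mem_range] at hi
    split_ifs with h
    · exact Submodule.zero_mem _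
    · by_cases hij : (i : ℤ) + j ≤ e
      · refine Submodule.smul_mem _ _ (hmono _ _ ?_ (h1 i (j + 1) hi (hj i j hi hij h)))
        push_cast
        linarith
      · rw [hc0 i j (not_le.1 hij), zero_smul]
        exact Submodule.zero_mem _
  · refine Eq.trans ?_ (h6 E).symm
    rw [map_sum, map_sum, ← Finset.sum_add_distrib]
    refine Finset.sum_congr rfl fun i hi => ?_
    rw [map_sum, map_sum, ← Finset.sum_add_distrib]
    refine Finset.sum_congr rfl fun j hj' => ?_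
    rw [Finset.mem_range] at hi hj'
    have hcc : ((dX ^ i * dY ^ j : Module.End (ZMod 3) (Fn3 (3 ^ r) (3 ^ s))) E) 0 0 = c i j := rfl
    rw [hcc]
    by_cases h : i + 1 < 3 ^ r
    · rw [if_pos h, if_pos h, map_smul, map_zero, add_zero, h2 i j h hj']
    · rw [if_neg h, if_neg h, map_smul, map_zero, zero_add]
      by_cases hij : (i : ℤ) + j ≤ e
      · rw [h3 i j hi (hj i j hi hij h)]
      · rw [hc0 i j (not_le.1 hij), zero_smul, zero_smul]

private theorem main_Sur (hLow0 : S3Low0) (hLw1 : S3Lw1) (hBb : S3Bb) (r s : ℕ) :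
    ∀ (n : ℕ) (e : ℤ) (E : Fn3 (3 ^ r) (3 ^ s)), e < n → e < 3 ^ r + 3 ^ s - 2 → E ∈ Wd3 e →
    ∃ H0 H1 : Fn3 (3 ^ r) (3 ^ s), H0 ∈ Wd3 (e + 1) ∧ H1 ∈ Wd3 (e + 1) ∧
      H0 - op3 1 0 1 1 H0 - (H1 - op3 (-2) 1 (-1) 4 H1) = E := by
  have hL := hLow0 r s
  obtain ⟨_, _, _, _, hmono, _, _, _, _, _, _, _, _, hneg⟩ := hL
  obtain ⟨_, hB, hC, _⟩ := hLw1 r s
  intro n
  induction n with
  | zero =>
    intro e E he _ hE
    have h1 : E = 0 := hneg E (hmono e (-1) (by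
      have : e < 0 := by exact_mod_cast he
      omega) hE)
    refine ⟨0, 0, Submodule.zero_mem _, Submodule.zero_mem _, ?_⟩
    rw [h1, map_zero, map_zero]
    simp
  | succ n ih =>
    intro e E he he2 hE
    obtain ⟨U, V, hU, hV, hUV⟩ := decomp_Sur hLow0 hBb r s e E he2 hE
    have hW : -(U + V) ∈ Wd3 (e + 1) := Submodule.neg_mem _ (Submodule.add_mem _ hU hV)
    have e2 : e + 1 - 2 = e - 1 := by ring
    have hb := hB _ _ hW
    have hc := hC _ _ hU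
    rw [e2] at hb hc
    have hb' : op3 1 0 1 1 (-(U + V)) - (-(U + V)) - dY (-(U + V)) ∈
        (Wd3 (e - 1) : Submodule (ZMod 3) (Fn3 (3 ^ r) (3 ^ s))) := hb
    have hc' : op3 (-2) 1 (-1) 4 U - U - dX U + dY U ∈
        (Wd3 (e - 1) : Submodule (ZMod 3) (Fn3 (3 ^ r) (3 ^ s))) := hc
    have h3 := Submodule.sub_mem _ hb' hc'
    have h4 : op3 1 0 1 1 (-(U + V)) - (-(U + V)) - dY (-(U + V)) - (op3 (-2) 1 (-1) 4 U - U - dX U + dY U) =
        E - (-(U + V) - op3 1 0 1 1 (-(U + V)) - (U - op3 (-2) 1 (-1) 4 U)) := by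
      have h5 : (dY (-(U + V)) : Fn3 (3 ^ r) (3 ^ s)) = -(dY U + dY V) := by
        rw [map_neg, map_add]
      rw [h5, ← hUV]
      abel
    rw [h4] at h3
    obtain ⟨H0, H1, hH0, hH1, hR⟩ := ih (e - 1) _ (by push_cast at he; linarith) (by linarith) h3
    have h6 : e - 1 + 1 = e := by ring
    rw [h6] at hH0 hH1
    refine ⟨-(U + V) + H0, U + H1, Submodule.add_mem _ hW (hmono _ _ (by linarith) hH0),
      Submodule.add_mem _ hU (hmono _ _ (by linarith) hH1), ?_⟩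
    rw [map_add (op3 1 0 1 1) (-(U + V)) H0, map_add (op3 (-2) 1 (-1) 4) U H1]
    have h7 : -(U + V) + H0 - (op3 1 0 1 1 (-(U + V)) + op3 1 0 1 1 H0) -
        (U + H1 - (op3 (-2) 1 (-1) 4 U + op3 (-2) 1 (-1) 4 H1)) =
        (-(U + V) - op3 1 0 1 1 (-(U + V)) - (U - op3 (-2) 1 (-1) 4 U)) +
        (H0 - op3 1 0 1 1 H0 - (H1 - op3 (-2) 1 (-1) 4 H1)) := by abel
    rw [h7, hR]
    abel

theorem hSur (hLow0 : S3Low0) (hLw1 : S3Lw1) (hBb : S3Bb) : S3Sur := by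
  intro r s e E he hE
  exact main_Sur hLow0 hLw1 hBb r s (e + 1).toNat e E (by
    have := Int.self_le_toNat (e + 1)
    linarith) he hE

end Pool.Agent.Helper86.W3
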