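import Pool.Agent.Helper78.W3.StC

/-!
# Project W3, module Bal: transport to the balanced form, level `3^n`
-/

set_option autoImplicit false

namespace Pool.Agent.Helper86.W3

open Pool.Agent.Helper78.W3 Pool.Agent.Helper14.W3
open Pool.Agent.Helper14.CV (Homog EqC act Tl)

private theorem tne_Bal (k : ℕ) : (3 : ℤ) ^ k ≠ 0 := pow_ne_zero _ three_ne_zero

private theorem ne_of_Bal {k : ℕ} {p q : ℤ} (h : p ≠ 0 ∨ q ≠ 0) : p ≠ 0 ∨ (3 : ℤ) ^ k * q ≠ 0 := by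
  rcases h with h | h
  · exact Or.inl h
  · exact Or.inr (mul_ne_zero (tne_Bal k) h)

private theorem homogH_Bal {k : ℕ} {G : ℤ → ℤ → ℂ} (hG : Homog G) : Homog (act 1 0 0 (3 ^ k) G) := by
  intro l p q hl hpq
  simp only [act]
  have h := hG l p (3 ^ k * q) hl (ne_of_Bal hpq)
  rw [show 1 * (l * p) + 0 * (l * q) = l * p by ring,
    show 0 * (l * p) + 3 ^ k * (l * q) = l * (3 ^ k * q) by ring, h,
    show 1 * p + 0 * q = p by ring, show 0 * p + 3 ^ k * q = 3 ^ k * q by ring]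

private theorem symH_Bal {k s s' : ℕ} {G : ℤ → ℤ → ℂ} (hs : s' ≤ k + s) (hG : Sym3 0 s' G) :
    Sym3 k s (act 1 0 0 (3 ^ k) G) := by
  refine ⟨homogH_Bal hG.1, ?_⟩
  intro a b c d hdet hb hc
  obtain ⟨b', rfl⟩ := hb
  obtain ⟨c', rfl⟩ := hc
  obtain ⟨C, hC⟩ := hG.2 a b' (3 ^ k * (3 ^ s * c')) d (by linear_combination hdet)
    (by rw [pow_zero]; exact one_dvd _) (by
      have h1 : (3 : ℤ) ^ s' ∣ 3 ^ (k + s) := pow_dvd_pow 3 hs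
      have h2 : (3 : ℤ) ^ k * (3 ^ s * c') = 3 ^ (k + s) * c' := by rw [pow_add]; ring
      rw [h2]
      exact Dvd.dvd.mul_right h1 c')
  refine ⟨C, ?_⟩
  intro p q hpq
  have h := hC p (3 ^ k * q) (ne_of_Bal hpq)
  simp only [act] at h ⊢
  rw [show 1 * (a * p + 3 ^ k * b' * q) + 0 * (3 ^ s * c' * p + d * q)
      = a * p + b' * (3 ^ k * q) by ring,
    show 0 * (a * p + 3 ^ k * b' * q) + 3 ^ k * (3 ^ s * c' * p + d * q)
      = 3 ^ k * (3 ^ s * c') * p + d * (3 ^ k * q) by ring, h,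
    show 1 * p + 0 * q = p by ring, show 0 * p + 3 ^ k * q = 3 ^ k * q by ring]

/-- The general transport of a relation. -/
private theorem trans_Bal {k : ℕ} {H' K X : ℤ → ℤ → ℂ}
    (hK : ∀ p q : ℤ, (p ≠ 0 ∨ q ≠ 0) → H' p q = X p (3 ^ k * q))
    (h : EqC X K) : EqC H' (act 1 0 0 (3 ^ k) K) := by
  obtain ⟨C, hC⟩ := h
  refine ⟨C, ?_⟩
  intro p q hpq
  rw [hK p q hpq, hC p (3 ^ k * q) (ne_of_Bal hpq)]
  simp only [act]
  rw [show 1 * p + 0 * q = p by ring, show 0 * p + 3 ^ k * q = 3 ^ k * q by ring]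

private theorem id_Bal {k : ℕ} (G : ℤ → ℤ → ℂ) (p q : ℤ) :
    act 1 0 0 (3 ^ k) G p q = G p (3 ^ k * q) := by
  simp only [act]
  rw [show 1 * p + 0 * q = p by ring, show 0 * p + 3 ^ k * q = 3 ^ k * q by ring]

private theorem aux1_Bal {j : ℕ} {G : ℤ → ℤ → ℂ} (hG : Homog G) (t b : ℤ) (hb : b = t * 3 ^ j) {p q : ℤ}
    (hpq : p ≠ 0 ∨ q ≠ 0) :
    act 1 b 0 1 (act 1 0 0 (3 ^ (j + 1)) G) p q = act 3 t 0 3 G p (3 ^ (j + 1) * q) := by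
  subst hb
  simp only [act]
  have hne : p + t * 3 ^ j * q ≠ 0 ∨ 3 ^ (j + 1) * q ≠ 0 := by
    by_cases hq : q = 0
    · left
      rw [hq, mul_zero, add_zero]
      rcases hpq with h | h
      · exact h
      · exact absurd hq h
    · exact Or.inr (mul_ne_zero (tne_Bal _) hq)
  have h1 := hG 3 (p + t * 3 ^ j * q) (3 ^ (j + 1) * q) three_ne_zero hne
  rw [show 1 * (1 * p + t * 3 ^ j * q) + 0 * (0 * p + 1 * q) = p + t * 3 ^ j * q by ring,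
    show 0 * (1 * p + t * 3 ^ j * q) + 3 ^ (j + 1) * (0 * p + 1 * q) = 3 ^ (j + 1) * q by ring,
    show 3 * p + t * (3 ^ (j + 1) * q) = 3 * (p + t * 3 ^ j * q) by rw [pow_succ]; ring,
    show 0 * p + 3 * (3 ^ (j + 1) * q) = 3 * (3 ^ (j + 1) * q) by ring, h1]

private theorem rel1_Bal {k : ℕ} (hk : 1 ≤ k) {G : ℤ → ℤ → ℂ} (hG : Homog G)
    (h : EqC (G + act 3 1 0 3 G + act 3 2 0 3 G) 0) :
    EqC (act 1 0 0 (3 ^ k) G + act 1 (3 ^ (k - 1)) 0 1 (act 1 0 0 (3 ^ k) G) +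
      act 1 (2 * 3 ^ (k - 1)) 0 1 (act 1 0 0 (3 ^ k) G)) 0 := by
  obtain ⟨j, rfl⟩ : ∃ j, k = j + 1 := ⟨k - 1, by omega⟩
  refine trans_Bal (k := j + 1) ?_ h
  intro p q hpq
  rw [Nat.add_sub_cancel]
  simp only [Pi.add_apply]
  rw [aux1_Bal hG 1 (3 ^ j) (by ring) hpq, aux1_Bal hG 2 (2 * 3 ^ j) rfl hpq, id_Bal]

private theorem aux2_Bal {k j l : ℕ} (hj : k + j = l) {G : ℤ → ℤ → ℂ} (t b b' : ℤ) (hb : b = t * 3 ^ j)
    (hb' : b' = t * 3 ^ l) (p q : ℤ) :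
    act 1 0 b 1 (act 1 0 0 (3 ^ k) G) p q = act 1 0 b' 1 G p (3 ^ k * q) := by
  subst hb hb'
  simp only [act]
  rw [← hj]
  rw [show 1 * (1 * p + 0 * q) + 0 * (t * 3 ^ j * p + 1 * q) = 1 * p + 0 * (3 ^ k * q) by ring,
    show 0 * (1 * p + 0 * q) + 3 ^ k * (t * 3 ^ j * p + 1 * q)
      = t * 3 ^ (k + j) * p + 1 * (3 ^ k * q) by rw [pow_add]; ring]

private theorem rel2_Bal {k j l : ℕ} (hj : k + j = l) {G : ℤ → ℤ → ℂ}
    (h : EqC (G + act 1 0 (3 ^ l) 1 G + act 1 0 (2 * 3 ^ l) 1 G) 0) :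
    EqC (act 1 0 0 (3 ^ k) G + act 1 0 (3 ^ j) 1 (act 1 0 0 (3 ^ k) G) +
      act 1 0 (2 * 3 ^ j) 1 (act 1 0 0 (3 ^ k) G)) 0 := by
  refine trans_Bal (k := k) ?_ h
  intro p q _
  simp only [Pi.add_apply]
  rw [aux2_Bal hj 1 (3 ^ j) (3 ^ l) (by ring) (by ring), aux2_Bal hj 2 (2 * 3 ^ j) (2 * 3 ^ l) rfl rfl, id_Bal]

private theorem rel3_Bal {k l : ℕ} {e : ℤ} (he : e ≠ 0) (hl : (3 : ℤ) ^ l = 3 ^ k * (3 ^ k * e))
    {G : ℤ → ℤ → ℂ} (hG : Homog G) (h : EqC (act 0 (-1) (3 ^ l) 0 G) (-G)) :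
    EqC (act 0 (-1) e 0 (act 1 0 0 (3 ^ k) G)) (-(act 1 0 0 (3 ^ k) G)) := by
  refine trans_Bal (k := k) ?_ h
  intro p q hpq
  simp only [act]
  have hne : -q ≠ 0 ∨ 3 ^ k * (e * p) ≠ 0 := by
    rcases hpq with h | h
    · exact Or.inr (mul_ne_zero (tne_Bal _) (mul_ne_zero he h))
    · exact Or.inl (neg_ne_zero.2 h)
  have h1 := hG (3 ^ k) (-q) (3 ^ k * (e * p)) (tne_Bal k) hne
  rw [show 1 * (0 * p + -1 * q) + 0 * (e * p + 0 * q) = -q by ring,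
    show 0 * (0 * p + -1 * q) + 3 ^ k * (e * p + 0 * q) = 3 ^ k * (e * p) by ring,
    show 0 * p + -1 * (3 ^ k * q) = 3 ^ k * (-q) by ring,
    show 3 ^ l * p + 0 * (3 ^ k * q) = 3 ^ k * (3 ^ k * (e * p)) by rw [hl]; ring, h1]

private theorem rel4_Bal {k : ℕ} {G : ℤ → ℤ → ℂ} (h : EqC (act (-1) 0 0 1 G) G) :
    EqC (act (-1) 0 0 1 (act 1 0 0 (3 ^ k) G)) (act 1 0 0 (3 ^ k) G) := by
  refine trans_Bal (k := k) ?_ h
  intro p q _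
  simp only [act]
  congr 1 <;> ring

theorem hBal : S3Bal := by
  intro k G hk
  refine ⟨?_, ?_, ?_⟩
  · rintro ⟨h1, h2, h3, h4, h5⟩
    exact ⟨symH_Bal (by omega) h1, rel1_Bal hk h1.1 h2, rel2_Bal (by omega) h3,
      rel3_Bal one_ne_zero (by rw [mul_one, ← pow_add]; congr 1; omega) h1.1 h4, rel4_Bal h5⟩
  · rintro ⟨h1, h2, h3, h4, h5⟩
    refine ⟨symH_Bal (by omega) h1, rel1_Bal hk h1.1 h2, rel2_Bal (by omega) h3, ?_, rel4_Bal h5⟩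
    exact rel3_Bal three_ne_zero (by rw [← pow_succ, ← pow_add]; congr 1; omega) h1.1 h4
  · rintro hG ⟨C, hC⟩
    refine ⟨C, ?_⟩
    intro p q hpq
    have hne : 3 ^ k * p ≠ 0 ∨ q ≠ 0 := by
      rcases hpq with h | h
      · exact Or.inl (mul_ne_zero (tne_Bal k) h)
      · exact Or.inr h
    have h1 := hC (3 ^ k * p) q hne
    simp only [act] at h1
    rw [show 1 * (3 ^ k * p) + 0 * q = 3 ^ k * p by ring,
      show 0 * (3 ^ k * p) + 3 ^ k * q = 3 ^ k * q by ring, hG (3 ^ k) p q (tne_Bal k) hpq] at h1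
    exact h1

end Pool.Agent.Helper86.W3
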