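import Pool.Agent.Helper14.W3.StA

/-! # Project W3, module P4: Fricke relation of the potential, level `3^n` -/

set_option autoImplicit false

open Filter Topology

namespace Pool.Agent.Helper86.W3

open Pool.Agent.Helper14.CV Pool.Agent.Helper14.W3

/-- the point `y i` -/
private noncomputable def wy (y : ℝ) : ℂ := ((0 : ℝ) : ℂ) + y * Complex.I

private theorem wy_re (y : ℝ) : (wy y).re = 0 := by simp [wy]

private theorem wy_im (y : ℝ) : (wy y).im = y := by simp [wy]

private theorem lin_re (c d : ℤ) (y : ℝ) : ((c : ℂ) * wy y + d).re = d := by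
  rw [Complex.add_re, Complex.mul_re, wy_re, wy_im, Complex.intCast_re, Complex.intCast_im,
    Complex.intCast_re]
  ring

private theorem lin_im (c d : ℤ) (y : ℝ) : ((c : ℂ) * wy y + d).im = c * y := by
  rw [Complex.add_im, Complex.mul_im, wy_re, wy_im, Complex.intCast_re, Complex.intCast_im,
    Complex.intCast_im]
  ring

private theorem lin_ne {c d : ℤ} {y : ℝ} (hy : 0 < y) (h : c ≠ 0 ∨ d ≠ 0) :
    (c : ℂ) * wy y + d ≠ 0 := by
  intro h0
  have h1 := congrArg Complex.re h0
  have h2 := congrArg Complex.im h0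
  rw [lin_re, Complex.zero_re] at h1
  rw [lin_im, Complex.zero_im] at h2
  have h3 : (c : ℝ) = 0 := by
    rcases mul_eq_zero.1 h2 with h | h
    · exact h
    · exact absurd h hy.ne'
  rcases h with h | h
  · exact h (by exact_mod_cast h3)
  · exact h (by exact_mod_cast h1)

private theorem ne_of_det {a b c d : ℤ} (h : 0 < a * d - b * c) :
    (a ≠ 0 ∨ b ≠ 0) ∧ (c ≠ 0 ∨ d ≠ 0) := by
  constructor
  · by_contra hc
    push Not at hc
    rw [hc.1, hc.2] at h
    simp at h
  · by_contra hc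
    push Not at hc
    rw [hc.1, hc.2] at h
    simp at h

private theorem frac_im {a b c d : ℤ} (h : 0 < a * d - b * c) {y : ℝ} (hy : 0 < y) :
    0 < (((a : ℂ) * wy y + b) / ((c : ℂ) * wy y + d)).im := by
  have h1 := lin_ne hy (ne_of_det h).2
  have h2 : 0 < Complex.normSq ((c : ℂ) * wy y + d) := Complex.normSq_pos.2 h1
  rw [Complex.div_im, lin_re, lin_im, lin_re, lin_im, ← sub_div]
  refine div_pos ?_ h2
  have h3 : (0 : ℝ) < a * d - b * c := by exact_mod_cast h
  have h4 : (a : ℝ) * y * d - b * (c * y) = (a * d - b * c) * y := by ring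
  rw [h4]
  exact mul_pos h3 hy

private theorem pot_lim {N : ℕ} {f : CuspForm (G0 N) 2} {G : ℤ → ℤ → ℂ} (hG : IsPot f G)
    (a b c d : ℤ) (h : 0 < a * d - b * c) :
    Tendsto (fun y : ℝ => Fp f (((a : ℂ) * wy y + b) / ((c : ℂ) * wy y + d))) atTop
      (𝓝 (G a c)) := hG a b c d h 0

/-- a matrix with a given first column -/
private theorem exists_col (p q : ℤ) (h : p ≠ 0 ∨ q ≠ 0) : ∃ b d : ℤ, 0 < p * d - b * q := by
  refine ⟨-q, p, ?_⟩
  rcases h with h | h
  · have : 0 < p ^ 2 := by positivity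
    nlinarith [sq_nonneg q]
  · have : 0 < q ^ 2 := by positivity
    nlinarith [sq_nonneg p]

theorem hP4 (h3W : StA3W) (_hP1 : StP1) : S3P4 := by
  intro n f G hG hW
  obtain ⟨k, hk⟩ := h3W (3 ^ n) inferInstance f hW
  refine ⟨k, fun p q hpq => ?_⟩
  obtain ⟨b, d, hdet⟩ := exists_col p q hpq
  have d1 : 0 < (0 * p + -1 * q) * ((3 ^ n : ℤ) * b) - (-d) * ((3 ^ n : ℤ) * p + 0 * q) := by
    have : (0 * p + -1 * q) * ((3 ^ n : ℤ) * b) - (-d) * ((3 ^ n : ℤ) * p + 0 * q) =
      3 ^ n * (p * d - b * q) := by ring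
    rw [this]; exact mul_pos (by positivity) hdet
  have t0 := ((pot_lim hG p b q d hdet).neg).add_const k
  have t1 := pot_lim hG _ _ _ _ d1
  refine tendsto_nhds_unique (t1.congr' ?_) t0
  filter_upwards [eventually_gt_atTop 0] with y hy
  have hden := lin_ne hy (ne_of_det hdet).2
  have hnum := lin_ne hy (ne_of_det hdet).1
  have him := frac_im hdet hy
  rw [← hk _ him]
  congr 1
  have h3n : (3 : ℂ) ^ n ≠ 0 := pow_ne_zero _ three_ne_zero
  push_cast
  have e : ((3 : ℂ) ^ n * p + 0 * q) * wy y + 3 ^ n * b = 3 ^ n * ((p : ℂ) * wy y + b) := by ring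
  rw [e]
  field_simp
  ring

end Pool.Agent.Helper86.W3
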